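import Mathlib

/-!
# MP_1375b8_an: bounded nontrivial solutions for every `0 < μ < 1`

If `0 < μ < 1` and `y₀ > 0` is the positive root of `μ (e^{y₀} - 1) = y₀`, then the solution of the
recursion starting at `y₀` satisfies `y_n = 0` for all `n ≥ 1`, so it is bounded.
-/

set_option autoImplicit false

namespace Pool.Agent.Results.MP_1375b8_an.BoundedSolution

open Real

/-- `y` satisfies the recursion `y_{2n+1} = y_{2n} + μ (1 - e^{y_n})` for `n ≥ 0` and
`y_{2n} = y_{2n-1} + μ (1 - e^{y_n})` for `n ≥ 1`. -/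
def IsSolution (μ : ℝ) (y : ℕ → ℝ) : Prop :=
  (∀ n : ℕ, y (2 * n + 1) = y (2 * n) + μ * (1 - exp (y n))) ∧
    ∀ n : ℕ, 1 ≤ n → y (2 * n) = y (2 * n - 1) + μ * (1 - exp (y n))

lemma root (μ : ℝ) (h0 : 0 < μ) (h1 : μ < 1) : ∃ c : ℝ, 0 < c ∧ μ * (exp c - 1) = c := by
  have hcont : Continuous fun x : ℝ => μ * (exp x - 1) - x := by fun_prop
  have hsmall : ∃ a : ℝ, 0 < a ∧ a ≤ 1 ∧ μ * (exp a - 1) - a < 0 := by
    have hm : 0 < min 1 ((1 - μ) / 2) := lt_min one_pos (by linarith)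
    refine ⟨min 1 ((1 - μ) / 2), hm, min_le_left _ _, ?_⟩
    set a := min 1 ((1 - μ) / 2) with ha
    have ha1 : a ≤ 1 := min_le_left _ _
    have ha2 : a ≤ (1 - μ) / 2 := min_le_right _ _
    have hb := Real.abs_exp_sub_one_sub_id_le (x := a) (by rw [abs_of_pos hm]; exact ha1)
    have hb2 := (abs_le.1 hb).2
    nlinarith [mul_pos h0 hm, mul_pos (mul_pos h0 hm) hm]
  obtain ⟨a, ha0, ha1, hneg⟩ := hsmall
  have hbig : 0 < μ * (exp (2 / μ) - 1) - 2 / μ := by
    have hq := Real.quadratic_le_exp_of_nonneg (x := 2 / μ) (by positivity)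
    have : μ * (1 + 2 / μ + (2 / μ) ^ 2 / 2 - 1) - 2 / μ = 2 := by field_simp; ring
    nlinarith [mul_le_mul_of_nonneg_left hq h0.le]
  have hle : a ≤ 2 / μ := by
    rw [le_div_iff₀ h0]; nlinarith
  obtain ⟨c, hc, hc0⟩ := intermediate_value_Icc hle hcont.continuousOn ⟨hneg.le, hbig.le⟩
  exact ⟨c, lt_of_lt_of_le ha0 hc.1, by simp only at hc0; linarith⟩

/-- For every `μ ∈ (0, 1)` there is an initial value `y₀ > 0` such that the solution of the recursion
starting at `y₀` exists, is unique and bounded; it satisfies `y_n = 0` for all `n ≥ 1`. -/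
theorem result : ∀ μ : ℝ, 0 < μ → μ < 1 → ∃ y₀ : ℝ, 0 < y₀ ∧
    (∃ y : ℕ → ℝ, IsSolution μ y ∧ y 0 = y₀) ∧
    ∀ y : ℕ → ℝ, IsSolution μ y → y 0 = y₀ → (∀ n : ℕ, 1 ≤ n → y n = 0) ∧ ∀ n : ℕ, |y n| ≤ y₀ := by
  intro μ h0 h1
  obtain ⟨c, hc, hc0⟩ := root μ h0 h1
  refine ⟨c, hc, ⟨fun n => if n = 0 then c else 0, ⟨?_, ?_⟩, by simp⟩, ?_⟩
  · intro n
    rcases Nat.eq_zero_or_pos n with rfl | hn
    · simp only [mul_zero, zero_add, one_ne_zero, ↓reduceIte]; linarith
    · have h2 : n ≠ 0 := by omega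
      simp [h2]
  · intro n hn
    have h2 : n ≠ 0 := by omega
    have h3 : 2 * n - 1 ≠ 0 := by omega
    simp [h2, h3]
  · intro y hy hy0
    have key : ∀ n : ℕ, 1 ≤ n → y n = 0 := by
      intro n
      induction n using Nat.strong_induction_on with
      | _ n ih =>
        intro hn
        rcases Nat.even_or_odd' n with ⟨k, hk | hk⟩
        · have hk1 : 1 ≤ k := by omega
          rw [hk, hy.2 k hk1, ih (2 * k - 1) (by omega) (by omega), ih k (by omega) hk1]
          simp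
        · rcases Nat.eq_zero_or_pos k with hk0 | hk1
          · subst hk0
            rw [hk, hy.1 0, mul_zero, hy0]; linarith
          · rw [hk, hy.1 k, ih (2 * k) (by omega) (by omega), ih k (by omega) hk1]
            simp
    refine ⟨key, fun n => ?_⟩
    rcases Nat.eq_zero_or_pos n with rfl | hn
    · rw [hy0, abs_of_pos hc]
    · rw [key n hn, abs_zero]; exact hc.le

end Pool.Agent.Results.MP_1375b8_an.BoundedSolution
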